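import Pool.Agent.helper70.FI4.SpecK

/-!
# fk:KUP (project fi4, block K, MP_baa4d7_al): a character above a given one

`K` is normal in `L`, `ψ ∈ IrrOn K`. The induced function `indf L K ψ` is not zero at `1`, so some
`φ ∈ IrrOn L` has `m φ ψ ≠ 0` (CRE of DR); Clifford (CFA) and the uniqueness of the coefficients (CUQ)
show that `φ` is over `ψ`.
-/

set_option autoImplicit false

namespace Pool.Agent.FI4

open Pool.Agent.helper58.DC Pool.Agent.DI Pool.Agent.GR Pool.Agent.OB Pool.Agent.DR Pool.Agent.FI Pool.Agent.FI3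

section

variable {G : Type} [Group G]

lemma KUP_comp (n m : G) (ψ : G → ℂ) :
    funMap (MulAut.conj n) (funMap (MulAut.conj m) ψ) = funMap (MulAut.conj (n * m)) ψ := by
  funext x
  simp only [funMap]
  rw [map_mul, mul_inv_rev, MulAut.mul_apply]

lemma KUP_over (K L : Subgroup G) (φ ψ₁ ψ : G → ℂ) (e : ℕ) (n : G) (hn : n ∈ L)
    (h : ψ = funMap (MulAut.conj n) ψ₁) (ho : OverE K L φ ψ₁ e) : OverE K L φ ψ e := by
  have hset : {ψ' : G → ℂ | ∃ n ∈ L, ψ' = funMap (MulAut.conj n) ψ} =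
      {ψ' : G → ℂ | ∃ n ∈ L, ψ' = funMap (MulAut.conj n) ψ₁} := by
    ext ψ'
    constructor
    · rintro ⟨m, hm, rfl⟩
      exact ⟨m * n, L.mul_mem hm hn, by rw [h, KUP_comp]⟩
    · rintro ⟨m, hm, rfl⟩
      exact ⟨m * n⁻¹, L.mul_mem hm (L.inv_mem hn), by rw [h, KUP_comp, inv_mul_cancel_right]⟩
  intro x hx
  rw [hset]
  exact ho x hx

end

theorem KUP (hCFA : CFA_stmt) (hCCJ : CCJ_stmt) (hB2 : B2_stmt) (hCRE : CRE_stmt)
    (hCUQ : CUQ_stmt) : KUP_stmt := by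
  classical
  intro G _ _ K L hKL hLK ψ hψ
  obtain ⟨m, hm1, hm2, -⟩ := hCRE G L K hKL
  have hψ1 : ψ 1 ≠ 0 := by
    obtain ⟨n, hn0, hn, -⟩ := ((hB2 G K).2 ψ hψ).1
    rw [hn]
    exact_mod_cast hn0.ne'
  have hind : indf L K ψ 1 ≠ 0 := by
    have : indf L K ψ 1 = (Nat.card K : ℂ)⁻¹ * ((Nat.card L : ℂ) * ψ 1) := by
      unfold indf
      congr 1
      have hfin : (L : Set G).Finite := Set.toFinite _
      rw [finsum_mem_eq_finite_toFinset_sum _ hfin]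
      have : ∀ t ∈ hfin.toFinset, ψ (t⁻¹ * 1 * t) = ψ 1 := by
        intro t _
        rw [mul_one, inv_mul_cancel]
      rw [Finset.sum_congr rfl this, Finset.sum_const, nsmul_eq_mul]
      congr 2
      rw [← Set.ncard_eq_toFinset_card _ hfin]
      rfl
    rw [this]
    exact mul_ne_zero (inv_ne_zero (Nat.cast_ne_zero.mpr Nat.card_pos.ne'))
      (mul_ne_zero (Nat.cast_ne_zero.mpr Nat.card_pos.ne') hψ1)
  obtain ⟨φ, hφ, hmφ⟩ : ∃ φ ∈ IrrOn L, m φ ψ ≠ 0 := by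
    by_contra hcon
    push Not at hcon
    apply hind
    rw [hm2 ψ hψ 1]
    apply finsum_mem_eq_zero_of_forall_eq_zero
    intro φ hφ
    rw [hcon φ hφ]
    simp
  obtain ⟨ψ₁, hψ₁, e, he, ho⟩ := (hCFA G K L hKL hLK).1 φ hφ
  have h1 := ((hCCJ G K L hLK ψ₁ hψ₁).2.1 φ e).1 ho
  have h2 := hCUQ G K (fun θ => (m φ θ : ℂ))
    (fun θ => if ∃ n ∈ L, θ = funMap (MulAut.conj n) ψ₁ then (e : ℂ) else 0)
    (fun x hx => by rw [← hm1 φ hφ x hx]; exact h1 x hx) ψ hψ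
  by_cases hc : ∃ n ∈ L, ψ = funMap (MulAut.conj n) ψ₁
  · obtain ⟨n, hn, hnψ⟩ := hc
    exact ⟨φ, hφ, e, he, KUP_over K L φ ψ₁ ψ e n hn hnψ ho⟩
  · rw [if_neg hc] at h2
    exact absurd (by exact_mod_cast h2) hmφ

end Pool.Agent.FI4
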