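import Mathlib
import Pool.Agent.helper59.FI4.Defs
import Pool.Agent.helper70.FI3.SpecN3
import Pool.Agent.helper22.OB.SpecZ

/-!
# Project fi4 (MP_baa4d7_al), block CNT: the number of the `p`-rational characters

OUTPUT. `GMX : Pool.Agent.FI4.GMX_stmt` and `CN4 : Pool.Agent.FI4.CN4_stmt` (`helper59/FI4/Defs`).

THEOREM. Let `|I| < p - 1`, `m` the exponent of `Gm p |G| m`. The number of the `ψ` in the block `B` with `ψ (g ^ m) = ψ g` is `l(B)`. Proof: it is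
`|G|⁻¹ ∑_g Sf B (g ^ m) g`; sort by `p`-parts, `g = y v`, `g ^ m = y ^ m v`. The part `y = 1` is `l(B)`. For `y ≠ 1` write `ψ (y v)` as a sum over the
characters `η` of `K = C_G(y)` in the blocks over `B`; pairs `η`, `η'` of different blocks of `K` do not contribute after the sum over `v`, and for one
block `S` of `K` the sum is `0` by the orthogonality of columns (DBV3), because `(y ^ m, S)` and `(y, S)` are not conjugate: otherwise some `t` in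
`TT M D θ` satisfies `t u t⁻¹ = u ^ m`, `1 ≠ u ∈ D`, and `m ^ |I| = 1` modulo `p`, so `p - 1 ≤ |I|`.

RULES. File `Pool/Agent/<seat>/FI4/XXX.lean` with

  import Pool.Agent.helper58.FI4.SpecC
  set_option autoImplicit false
  namespace Pool.Agent.FI4C
  open Pool.Agent.helper58.DC Pool.Agent.DI Pool.Agent.GR Pool.Agent.OB Pool.Agent.DR Pool.Agent.FI Pool.Agent.FI3 Pool.Agent.FI4
  theorem XXX (hYYY : YYY_stmt) ... : XXX_stmt := ...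
  end Pool.Agent.FI4C

auxiliary lemmas prefixed `XXX_`, no sorry, no double quotes, no convert / congr!. Any statement of this file, of `helper70/FI3/SpecN3` (`DBV3`), `helper70/FI/SpecQ1`
(`QES QSM QEI QCE QRS ..`), `helper58/FI/SpecC` (`FEQ FSI FBC ..`), `helper83/GR/Spec` (`PPT SCH IDM ..`), `helper81/DI/Spec{A,B,C}` (`B2 ..`), `helper22/OB/SpecZ` (`ZT4`),
`helper58/DC/Spec1` (`IF TI ..`) may be taken as a hypothesis, they are proved or are rows of this block.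
-/

set_option autoImplicit false

namespace Pool.Agent.FI4C

open Pool.Agent.helper58.DC Pool.Agent.DI Pool.Agent.GR Pool.Agent.OB Pool.Agent.DR Pool.Agent.FI Pool.Agent.FI3 Pool.Agent.FI4

/-! ## Interface (block P4) -/

/-- **QCNc** (block P4: QCN4; hypothesis only). -/
def QCNc_stmt : Prop :=
  ∀ (p : ℕ) (M : Ideal (integralClosure ℤ ℂ)), Setup p M → ∀ (G : Type) [Group G] [Finite G]
    (D : Subgroup G) (x : G) (θ χ : G → ℂ), LoA p M D x θ χ → ∀ P ≤ D, ∀ y ∈ cz P, PEl p y →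
    ∀ η ∈ IrrOn (Cz (cz P) y), SB M (cz P) η θ →
    ∃ l ∈ cz P, l * y * l⁻¹ ∈ D ∧ SB M (Cz (cz P) (l * y * l⁻¹)) θ (cjF l η)

/-- **QFUc** (block P4: QFU4; hypothesis only). -/
def QFUc_stmt : Prop :=
  ∀ (p : ℕ) (M : Ideal (integralClosure ℤ ℂ)), Setup p M → ∀ (G : Type) [Group G] [Finite G]
    (D : Subgroup G) (x : G) (θ χ : G → ℂ), LoA p M D x θ χ → ∀ P ≤ D, ∀ u ∈ D, ∀ l ∈ cz P,
    l * u * l⁻¹ ∈ D → ∀ ψ ∈ IrrOn (Cz (cz P) u), SB M (Cz (cz P) u) θ ψ →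
    SB M (Cz (cz P) (l * u * l⁻¹)) θ (cjF l ψ) →
    ∃ k ∈ Cz (cz P) (l * u * l⁻¹), k * l ∈ TT M D θ

/-! ## Arithmetic -/

/-- **GMX** (short to medium; Mathlib only; statement in `helper59/FI4/Defs`, the theorem line is `theorem GMX : Pool.Agent.FI4.GMX_stmt`). Proof: `n = p ^ a * n'`, `p ∤ n'` (`Nat.exists_eq_pow_mul_and_not_dvd`).
`(ZMod (p ^ a))ˣ` is cyclic for odd `p` (grep `isCyclic_units` in Mathlib, e.g. `ZMod.isCyclic_units_iff` or `isCyclic_units_of_prime_pow`), `g` a generator, `m` from the Chinese remainder theorem with `m ≡ g` modulo `p ^ a`, `m ≡ 1` modulo `n'`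
(`Nat.chineseRemainder`). `m` is prime to `p ^ a` and to `n'`. If `d ∣ n`, `p ∤ d` then `d ∣ n'`. If `p ∤ s` then `s` is a unit modulo `p ^ a`, `= g ^ j`, so `m ^ j ≡ s` modulo `p ^ a`, and `p ^ k ∣ n` implies `p ^ k ∣ p ^ a`. (`a = 0`: `j = 0`.) This row has no
`def` of its own here. -/
theorem GMX_doc : True := trivial

/-- **CPR** (short to medium; Mathlib only). Primitive roots. Proof: `(ZMod p)ˣ` is cyclic (`IsCyclic` instance for the units of a finite field), `g` a generator, `orderOf g = p - 1`, `s = (g : ZMod p).val`, `p ∤ s`. `Gm.gen` (`k = 1`, `p ∣ n`): `m ^ j ≡ s`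
modulo `p`. So `g ^ i = (m ^ i) ^ j = 1` in `ZMod p`: `p - 1 = orderOf g ∣ i`. -/
def CPR_stmt : Prop :=
  ∀ (p n m i : ℕ), p.Prime → p ∣ n → Gm p n m → 0 < i → m ^ i ≡ 1 [MOD p] → p - 1 ≤ i

open Classical in
/-- **CCL** (short; Mathlib only). A sum over a finite set which is a disjoint union of classes. Proof: sort `T` by `cl` (`Finset.sum_fiberwise_of_maps_to` with the map `cl : A → Finset A`, values in `T.image cl`): the fibre over `cl η₀` is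
`cl η₀` itself, the sum over it is `0`. -/
def CCL_stmt : Prop :=
  ∀ (A : Type) (T : Finset A) (cl : A → Finset A) (g : A → ℂ), (∀ η ∈ T, η ∈ cl η ∧ cl η ⊆ T) →
    (∀ η ∈ T, ∀ η' ∈ cl η, cl η' = cl η) → (∀ η ∈ T, ∑ η' ∈ cl η, g η' = 0) → ∑ η ∈ T, g η = 0

/-! ## Counting -/

/-- **CFX** (short to medium; from ZT4, B2 of DI, IF of DC). The number of the characters fixed by `m`. Proof: for `ψ ∈ IrrOn ⊤` the function `ψ' g = ψ (g ^ m)` is in `IrrOn ⊤` (ZT4 with `s = m`, `H = ⊤`); orthogonality (B2): `∑_g ψ' g * ψ g⁻¹` is `|G|` if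
`ψ' = ψ`, that is `PR m ψ`, and `0` otherwise. Sum over `ψ ∈ Blk M χ ⊤` (finite) and exchange the sums; `Sf S a b = ∑_{ψ ∈ S} ψ a * ψ b⁻¹`. -/
def CFX_stmt : Prop :=
  ∀ (M : Ideal (integralClosure ℤ ℂ)) (G : Type) [Group G] [Finite G] (χ : G → ℂ) (m : ℕ), m.Coprime (Nat.card G) →
    (Nat.card G : ℂ) * ({ψ : G → ℂ | ψ ∈ Blk M χ (⊤ : Subgroup G) ∧ PR m ψ}.ncard : ℂ) =
      ∑ᶠ g ∈ ((⊤ : Subgroup G) : Set G), Sf (Blk M χ (⊤ : Subgroup G)) (g ^ m) g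

/-! ## The subsections `(y, S)` and `(y ^ m, S)` are not conjugate -/

/-- **CNO** (medium; from QCNc, QFUc, CPR, FEQ, FSI, TTF-type facts). Proof: `cz ⊥ = ⊤` (grep `FFD3_cz`). Let `K = Cz ⊤ y` and suppose `w y w⁻¹ = y ^ m`, `SB M K (cjF w ψ) ψ`. `Cz ⊤ (y ^ m) = K`, because `m` is prime to the order of `y` (`y` is a power of `y ^ m`). QCNc (`P = ⊥`) for `y`, `ψ`: `l`
with `u = l y l⁻¹ ∈ D` and `SB M (Cz ⊤ u) θ (cjF l ψ)`. Let `w' = l w l⁻¹`, `ψ₁ = cjF l ψ ∈ IrrOn (Cz ⊤ u)` (FEQ, `Cz ⊤ u = cjS l K`). `w' u w'⁻¹ = u ^ m ∈ D`, `Cz ⊤ (w' u w'⁻¹) = Cz ⊤ u`; `cjF w' ψ₁ = cjF l (cjF w ψ)`, and `SB M (Cz ⊤ u) (cjF l (cjF w ψ)) (cjF l ψ)`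
(FEQ), so `SB M (Cz ⊤ (w' u w'⁻¹)) θ (cjF w' ψ₁)`. QFUc (`l := w'`): `k ∈ Cz ⊤ (u ^ m)` with `t = k w' ∈ TT M D θ`: `t u t⁻¹ = k u ^ m k⁻¹ = u ^ m`. Hence `t ^ j * u * t⁻¹ ^ j = u ^ (m ^ j)` for all `j`. Let `i = iI M D θ = (cz D).relIndex (TT M D θ) > 0`: `cz D` is normal in
`TT M D θ` (`cz_conj`, `TT ≤ nz D`), so `t ^ i ∈ cz D` and `u ^ (m ^ i) = u`. `u ≠ 1` is a `p`-element: `p ∣ orderOf u`, `orderOf u ∣ |G|`, `m ^ i ≡ 1` modulo `p`. CPR: `p - 1 ≤ i`, a contradiction. -/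
def CNO_stmt : Prop :=
  ∀ (p : ℕ) (M : Ideal (integralClosure ℤ ℂ)), Setup p M → ∀ (G : Type) [Group G] [Finite G]
    (D : Subgroup G) (x : G) (θ χ : G → ℂ), LoA p M D x θ χ → iI M D θ < p - 1 →
    ∀ m : ℕ, Gm p (Nat.card G) m → ∀ y : G, PEl p y → y ≠ 1 →
    ∀ ψ ∈ IrrOn (Cz (⊤ : Subgroup G) y), SB M (⊤ : Subgroup G) ψ θ → ∀ w : G, w * y * w⁻¹ = y ^ m →
    ¬ SB M (Cz (⊤ : Subgroup G) y) (cjF w ψ) ψ

/-! ## The sum over one section -/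

/-- **CEX** (medium; from QSM, QES, QEI, QCE, FBC, B2, IF). One section. Proof: let `K = Cz ⊤ y = Cz ⊤ (y ^ m) = Cz ⊤ y⁻¹` (`y` is a power of `y ^ m`), `T = BlC M ⊤ θ y` (`= BlC M ⊤ θ (y ^ m) = BlC M ⊤ θ y⁻¹`), `v ∈ K` `p`-regular. For `χ' ∈ IrrOn ⊤` QSM for `y ^ m`, `v` and for `y⁻¹`, `v⁻¹`
(`(y v)⁻¹ = y⁻¹ v⁻¹`): `∑_{η ∈ T} mt K χ' η * η (y ^ m v)` is `χ' (y ^ m v)` if `χ' ∈ Bl M ⊤ θ` and `0` otherwise, and the same for `(y v)⁻¹`. So `Sf (Bl M ⊤ θ) (y ^ m v) (y v) = ∑_{χ' ∈ IrrOn ⊤} ∑_{η, η' ∈ T} mt K χ' η * mt K χ' η' * η (y ^ m v) * η' (y v)⁻¹`. Sum over `v` and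
exchange the (finite) sums. The pairs with `η'` not in `Bl M K η` drop out: `η (y ^ m v) = (η (y ^ m) / η 1) η v`, `η' (y v)⁻¹ = (η' y⁻¹ / η' 1) η' v⁻¹` (QCE for `y ^ m`, `y⁻¹`, central in `K`), so the sum over `v` is a multiple of `EE p K η η'`, which is `0` by QEI (2) for the block
`Bl M K η` (FBC). `Bl M K η ⊆ T` for `η ∈ T` (FBC: `BC M K T`, symmetric). -/
def CEX_stmt : Prop :=
  ∀ (p : ℕ) (M : Ideal (integralClosure ℤ ℂ)), Setup p M → ∀ (G : Type) [Group G] [Finite G]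
    (θ : G → ℂ) (m : ℕ), m.Coprime (Nat.card G) → ∀ y : G, PEl p y →
    ∑ᶠ v ∈ {v : G | v ∈ Cz (⊤ : Subgroup G) y ∧ PReg p v}, Sf (Bl M (⊤ : Subgroup G) θ) (y ^ m * v) (y * v) =
    ∑ᶠ η ∈ BlC M (⊤ : Subgroup G) θ y, ∑ᶠ η' ∈ Bl M (Cz (⊤ : Subgroup G) y) η,
      (∑ᶠ χ' ∈ IrrOn (⊤ : Subgroup G), mt (Cz (⊤ : Subgroup G) y) χ' η * mt (Cz (⊤ : Subgroup G) y) χ' η') *
        ∑ᶠ v ∈ {v : G | v ∈ Cz (⊤ : Subgroup G) y ∧ PReg p v}, η (y ^ m * v) * η' (y * v)⁻¹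

/-- **CBL** (medium; from DBV3, QES, FBC, IF). One block `S` of `K = Cz ⊤ y`. Proof: for `v ∈ K` `p`-regular DBV3 for `H = ⊤`, `a = y ^ m`, `u = y`, `v' = v`, `S' = S` (`Cz ⊤ (y ^ m) = Cz ⊤ y`: rewrite) gives `∑_{χ' ∈ IrrOn ⊤} ev χ' (eS K S) (y ^ m v) * ev χ' (eS K S) (y v)⁻¹ = 0`, and by QES
`ev χ' (eS K S) g = ∑_{η ∈ S} mt K χ' η * η g` for `g ∈ K`. Sum over `v`, multiply out, exchange the finite sums. -/
def CBL_stmt : Prop :=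
  ∀ (p : ℕ) (M : Ideal (integralClosure ℤ ℂ)), Setup p M → ∀ (G : Type) [Group G] [Finite G]
    (m : ℕ), m.Coprime (Nat.card G) → ∀ y : G, PEl p y → ∀ S : Set (G → ℂ), BC M (Cz (⊤ : Subgroup G) y) S →
    (∀ w : G, w * y * w⁻¹ = y ^ m → ∀ ψ ∈ S, cjF w ψ ∉ S) →
    ∑ᶠ η ∈ S, ∑ᶠ η' ∈ S,
      (∑ᶠ χ' ∈ IrrOn (⊤ : Subgroup G), mt (Cz (⊤ : Subgroup G) y) χ' η * mt (Cz (⊤ : Subgroup G) y) χ' η') *
        ∑ᶠ v ∈ {v : G | v ∈ Cz (⊤ : Subgroup G) y ∧ PReg p v}, η (y ^ m * v) * η' (y * v)⁻¹ = 0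

/-- **CSZ** (short to medium; from CEX, CBL, CCL, CNO, FBC, IF). The sections `y ≠ 1` do not contribute. Proof: CEX; `T = BlC M ⊤ θ y` is finite (IF), `cl η = Bl M K η` (as a finset), `g η = ∑_{η' ∈ cl η} F η η'` (`F` the summand of CEX). CCL: `η ∈ cl η ⊆ T` (FBC), `η' ∈ cl η` implies
`Bl M K η' = Bl M K η` (`SB.symm`, `SB.trans`). For `η₀ ∈ T` the sum of `g` over `cl η₀` is the double sum of CBL for `S = Bl M K η₀` (`cl η = cl η₀` for `η ∈ cl η₀`). The condition of CBL: `ψ, cjF w ψ ∈ Bl M K η₀` imply `SB M K (cjF w ψ) ψ`, and `SB M ⊤ ψ θ` (`ψ ∈ T`): CNO. -/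
def CSZ_stmt : Prop :=
  ∀ (p : ℕ) (M : Ideal (integralClosure ℤ ℂ)), Setup p M → ∀ (G : Type) [Group G] [Finite G]
    (D : Subgroup G) (x : G) (θ χ : G → ℂ), LoA p M D x θ χ → iI M D θ < p - 1 →
    ∀ m : ℕ, Gm p (Nat.card G) m → ∀ y : G, PEl p y → y ≠ 1 →
    ∑ᶠ v ∈ {v : G | v ∈ Cz (⊤ : Subgroup G) y ∧ PReg p v},
      Sf (Bl M (⊤ : Subgroup G) θ) (y ^ m * v) (y * v) = 0

/-- **CN4** (short to medium; from CFX, PPT, CSZ, LOA, FBB3-type; the theorem line is `theorem CN4 (hLOA : LOA_stmt) (hCFX : CFX_stmt) (hCSZ : CSZ_stmt) .. : Pool.Agent.FI4.CN4_stmt`). Proof: `Blk M χ ⊤ = Bl M ⊤ θ`: `Induces M ψ χ ↔ SB M ⊤ ψ θ` for `ψ ∈ IrrOn ⊤`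
(`theorem FBB3` of `Pool/Agent/helper5/FI3/FBB3.lean`: copy the proof; `lo.rt.chi`, `lo.rt.th`, `lo.rt.ind`). CFX and PPT (`H = ⊤`): `|G| N = ∑_y ∑_v Sf B ((y v) ^ m) (y v)`, `y` `p`-element, `v ∈ Cz ⊤ y` `p`-regular, and `(y v) ^ m = y ^ m v` (`Commute.mul_pow`; `v ^ m = v`
because `m ≡ 1` modulo `orderOf v`, `Gm.reg`). The part `y = 1` (`Cz ⊤ 1 = ⊤`) is `∑_v Sf B v v = |G| LL p M χ ⊤` (exchange of sums, definition of `EE`), the others are `0` (CSZ). Divide by `|G|`. -/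
theorem CN4_doc : True := trivial

end Pool.Agent.FI4C
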