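import Pool.Agent.helper43.FI4.GMX
import Pool.Agent.helper49.FI4.CPR
import Pool.Agent.helper45.FI4.CCL
import Pool.Agent.helper13.FI4.CFX
import Pool.Agent.helper24.FI4.CNO
import Pool.Agent.helper75.FI4.CEX
import Pool.Agent.helper44.FI4.CBL
import Pool.Agent.helper51.FI4.CSZ
import Pool.Agent.helper63.FI4.CN4
import Pool.Agent.helper59.FI4.AllP4
import Pool.Agent.helper70.FI3.AllN3
import Pool.Agent.helper22.OB.AllG
import Pool.Agent.helper83.GR.All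
import Pool.Agent.helper35.DR.AllDI
import Pool.Agent.helper12.FI.All

/-!
# Project fi4 (MP_baa4d7_al), block CNT: assembly (no hypotheses)

OUTPUT. `cGMX : Pool.Agent.FI4.GMX_stmt`, `cCN4 : Pool.Agent.FI4.CN4_stmt`.
-/

set_option autoImplicit false

namespace Pool.Agent.FI4C.AllC

open Pool.Agent Pool.Agent.FI Pool.Agent.FI3 Pool.Agent.FI4 Pool.Agent.GR Pool.Agent.helper58.DC Pool.Agent.DI Pool.Agent.OB

theorem cGMX : Pool.Agent.FI4.GMX_stmt := FI4C.GMX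
theorem cCPR : FI4C.CPR_stmt := FI4C.CPR
theorem cCCL : FI4C.CCL_stmt := FI4C.CCL
theorem cCFX : FI4C.CFX_stmt := FI4C.CFX Pool.Agent.OB.AllG.gZT4 GR.All.dB2 GR.All.dIF
theorem cCNO : FI4C.CNO_stmt := FI4C.CNO Pool.Agent.FI4.AllP4.pQCN4 Pool.Agent.FI4.AllP4.pQFU4 cCPR Pool.Agent.FI.AllC.cFEQ
theorem cCEX : FI4C.CEX_stmt := FI4C.CEX Pool.Agent.FI.AllQ.qQSM Pool.Agent.FI.AllQ.qQEI Pool.Agent.FI.AllQ.qQCE Pool.Agent.FI.AllC.cFBC GR.All.dB2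
theorem cCBL : FI4C.CBL_stmt := FI4C.CBL Pool.Agent.FI3.AllN3.nDBV3 Pool.Agent.FI.AllQ.qQES GR.All.dIF
theorem cCSZ : FI4C.CSZ_stmt := FI4C.CSZ cCEX cCBL cCCL cCNO Pool.Agent.FI.AllC.cFBC GR.All.dIF
theorem cCN4 : Pool.Agent.FI4.CN4_stmt := FI4C.CN4 Pool.Agent.FI4.AllP4.pLOA cCFX GR.All.dPPT cCSZ Pool.Agent.FI.AllC.cFSI GR.All.dIM GR.All.dC3 GR.All.dIF

end Pool.Agent.FI4C.AllC
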